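import Pool.Agent.G02.Stmts

set_option autoImplicit false

/-!
# G02, row FIN: from good parameters to the theorem
-/

namespace Pool.Agent.G02.H2

open Polynomial Pool.Agent.NJ Pool.Agent.G02

theorem fib_good (D : ℚ[X]) {t : ℚ} (h : Gd (D.eval t) t) :
    (fib (EG D) t).Δ ≠ 0 ∧ Two (fib (EG D) t) := by
  obtain ⟨hD, ht, ht4, hTr⟩ := h
  have t0 : t ≠ 0 := by
    rintro rfl
    exact ht (IsSquare.zero)
  have t4 : t - 4 ≠ 0 := by
    intro h0
    apply ht4
    rw [h0, mul_zero]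
    exact IsSquare.zero
  have e1 : (fib (EG D) t).a₁ = 0 := by simp [fib, EG]
  have e2 : (fib (EG D) t).a₂ = D.eval t * t := by simp [fib, EG]
  have e3 : (fib (EG D) t).a₃ = 0 := by simp [fib, EG]
  have e4 : (fib (EG D) t).a₄ = D.eval t ^ 2 * t := by simp [fib, EG]
  have e6 : (fib (EG D) t).a₆ = 0 := by simp [fib, EG]
  constructor
  · have hΔ : (fib (EG D) t).Δ = 16 * (D.eval t) ^ 6 * t ^ 3 * (t - 4) := by
      simp only [WeierstrassCurve.Δ, WeierstrassCurve.b₂, WeierstrassCurve.b₄,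
        WeierstrassCurve.b₆, WeierstrassCurve.b₈, e1, e2, e3, e4, e6]
      ring
    rw [hΔ]
    exact mul_ne_zero (mul_ne_zero (mul_ne_zero (by norm_num) (pow_ne_zero _ hD))
      (pow_ne_zero _ t0)) t4
  · intro X Y hXY
    rw [WeierstrassCurve.Affine.equation_iff] at hXY
    change Y ^ 2 + (fib (EG D) t).a₁ * X * Y + (fib (EG D) t).a₃ * Y =
      X ^ 3 + (fib (EG D) t).a₂ * X ^ 2 + (fib (EG D) t).a₄ * X + (fib (EG D) t).a₆ at hXY
    rw [e1, e2, e3, e4, e6] at hXY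
    have hY : Y = 0 := hTr X Y (by linear_combination hXY)
    rw [e1, e3, hY]
    ring

theorem fin (gen' : NJ.GENStmt) (rk0 : NJ.RK0Stmt) : FinStmt := by
  intro D hinf
  have hinf2 : {t : ℚ | (fib (EG D) t).Δ ≠ 0 ∧ Two (fib (EG D) t)}.Infinite :=
    hinf.mono fun t ht => fib_good D ht
  have hΔ : (EG D).Δ ≠ 0 := by
    obtain ⟨t, ht⟩ := hinf.nonempty
    intro h0
    apply (fib_good D ht).1
    unfold fib
    rw [WeierstrassCurve.map_Δ, h0, map_zero]
  have hgen : rk (gen (EG D)) = 0 := rk0 _ _ (gen' _ hΔ hinf2)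
  refine ⟨hgen, hinf2.mono fun t ht => ⟨ht.1, ?_⟩⟩
  rw [hgen]
  exact rk0 _ _ ht.2

end Pool.Agent.G02.H2
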