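import Pool.Agent.G02.StmtsS

/-!
# NJF: the infinite set for full 2-torsion
-/

set_option autoImplicit false

namespace Pool.Agent.G02.H2

open Polynomial Pool.Agent.NJ Pool.Agent.GT.F

theorem njf (tor : NJ.TORStmt) (pol : NJ.POLStmt) (nis : NJ.NISStmt) (bad : NJ.BADStmt)
    (deg : NJ.DEGStmt) (tws : NJ.TWSStmt) (par : NJ.PARStmt) (fibS : NJ.FIBStmt) : NjfStmt := by
  intro E hΔ hni h2 hb
  have hg : (gen E).Δ ≠ 0 := by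
    unfold gen
    rw [WeierstrassCurve.map_Δ]
    exact (map_ne_zero_iff _ (IsFractionRing.injective ℚ[X] (RatFunc ℚ))).2 hΔ
  obtain ⟨e₁, e₂, e₃, hR, h12, h23, h31⟩ := tor (gen E) hg h2
  obtain ⟨u, δ, x, y, z, hD⟩ := pol e₁ e₂ e₃ h12 h23 h31
  have hn := nis E hΔ hni e₁ e₂ e₃ u δ x y z hR hD
  have hf := bad E hΔ hb e₁ e₂ e₃ u δ x y z hR hD
  obtain ⟨hx, hy, hz⟩ := deg δ x y z hD.d0 hD.x0 hD.y0 hD.z0 hD.sum hD.cop hn hf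
  obtain ⟨k, s, hk, hs, hδ⟩ := tws δ x y z hD.d0 hD.x0 hD.y0 hD.z0 hD.sum hD.cop hn hx hy hz hf
  have hp := par δ x y z k s hD.sum hD.cop hD.x0 hD.y0 hD.z0 hn hx hy hz hk hs hδ
  exact fibS E e₁ e₂ e₃ u δ x y z hΔ hR hD hp

end Pool.Agent.G02.H2
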